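import Mathlib

/-! Clique-width expressions and the balanced cut lemma. -/

namespace Pool.Agent.X53.Cwd

open Finset Classical

/-- expressions with labels `Fin κ` -/
inductive Expr (V : Type) (κ : ℕ) : Type
  | vertex (v : V) (i : Fin κ) : Expr V κ
  | union (a b : Expr V κ) : Expr V κ
  | join (i j : Fin κ) (a : Expr V κ) : Expr V κ
  | relabel (i j : Fin κ) (a : Expr V κ) : Expr V κ

namespace Expr

variable {V : Type} {κ : ℕ}

/-- the vertex set -/
def verts : Expr V κ → Set V
  | vertex v _ => {v}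
  | union a b => a.verts ∪ b.verts
  | join _ _ a => a.verts
  | relabel _ _ a => a.verts

/-- the labels of the vertices -/
noncomputable def lab : Expr V κ → V → Fin κ
  | vertex _ i => fun _ => i
  | union a b => fun v => if v ∈ a.verts then a.lab v else b.lab v
  | join _ _ a => a.lab
  | relabel i j a => fun v => if a.lab v = i then j else a.lab v

/-- the adjacency relation -/
def adj : Expr V κ → V → V → Prop
  | vertex _ _ => fun _ _ => False
  | union a b => fun u v => a.adj u v ∨ b.adj u v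
  | join i j a => fun u v => a.adj u v ∨ (u ∈ a.verts ∧ v ∈ a.verts ∧
      ((a.lab u = i ∧ a.lab v = j) ∨ (a.lab u = j ∧ a.lab v = i)))
  | relabel _ _ a => a.adj

/-- well-formed expressions -/
def Valid : Expr V κ → Prop
  | vertex _ _ => True
  | union a b => a.Valid ∧ b.Valid ∧ Disjoint a.verts b.verts
  | join i j a => i ≠ j ∧ a.Valid
  | relabel _ _ a => a.Valid

theorem adj_mem (e : Expr V κ) : ∀ u v, e.adj u v → u ∈ e.verts ∧ v ∈ e.verts := by
  induction e with
  | vertex w i => intro u v h; exact h.elim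
  | union a b iha ihb =>
    intro u v h
    rcases h with h | h
    · exact ⟨Or.inl (iha u v h).1, Or.inl (iha u v h).2⟩
    · exact ⟨Or.inr (ihb u v h).1, Or.inr (ihb u v h).2⟩
  | join i j a ih =>
    intro u v h
    rcases h with h | h
    · exact ih u v h
    · exact ⟨h.1, h.2.1⟩
  | relabel i j a ih => exact ih

theorem verts_finite (e : Expr V κ) : e.verts.Finite := by
  induction e with
  | vertex w i => exact Set.finite_singleton w
  | union a b iha ihb => exact iha.union ihb
  | join i j a ih => exact ih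
  | relabel i j a ih => exact ih

/-- the balanced cut lemma -/
theorem balanced (n : ℕ) (hn : 2 ≤ n) (e : Expr V κ) (he : e.Valid)
    (hbig : 2 * n < 3 * e.verts.ncard) :
    ∃ (X : Set V) (ℓ : V → Fin κ), X ⊆ e.verts ∧ n ≤ 3 * X.ncard ∧ 3 * X.ncard ≤ 2 * n ∧
      ∀ x ∈ X, ∀ x' ∈ X, ℓ x = ℓ x' → e.lab x = e.lab x' ∧
        ∀ y ∈ e.verts, y ∉ X → (e.adj x y ↔ e.adj x' y) := by
  induction e with
  | vertex w i =>
    have h1 : (vertex w i : Expr V κ).verts.ncard = 1 := Set.ncard_singleton w
    omega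
  | union a b iha ihb =>
    obtain ⟨ha, hb, hd⟩ := he
    have hcard : (union a b).verts.ncard = a.verts.ncard + b.verts.ncard :=
      Set.ncard_union_eq hd a.verts_finite b.verts_finite
    have hbnot : ∀ v ∈ b.verts, v ∉ a.verts := fun v hv hv' => Set.disjoint_left.1 hd hv' hv
    have hanot : ∀ v ∈ a.verts, v ∉ b.verts := fun v hv hv' => Set.disjoint_left.1 hd hv hv'
    -- adjacency inside and across
    have e1 : ∀ x ∈ a.verts, ∀ y ∈ a.verts, ((union a b).adj x y ↔ a.adj x y) := by
      intro x hx y hy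
      constructor
      · rintro (h | h)
        · exact h
        · exact absurd (b.adj_mem x y h).1 (hanot x hx)
      · exact Or.inl
    have e2 : ∀ x ∈ b.verts, ∀ y ∈ b.verts, ((union a b).adj x y ↔ b.adj x y) := by
      intro x hx y hy
      constructor
      · rintro (h | h)
        · exact absurd (a.adj_mem x y h).1 (hbnot x hx)
        · exact h
      · exact Or.inr
    have e3 : ∀ x ∈ a.verts, ∀ y ∈ b.verts, ¬ (union a b).adj x y := by
      intro x hx y hy
      rintro (h | h)
      · exact hbnot y hy (a.adj_mem x y h).2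
      · exact hanot x hx (b.adj_mem x y h).1
    have e4 : ∀ x ∈ b.verts, ∀ y ∈ a.verts, ¬ (union a b).adj x y := by
      intro x hx y hy
      rintro (h | h)
      · exact hbnot x hx (a.adj_mem x y h).1
      · exact hanot y hy (b.adj_mem x y h).2
    have la : ∀ x ∈ a.verts, (union a b).lab x = a.lab x := fun x hx => if_pos hx
    have lb : ∀ x ∈ b.verts, (union a b).lab x = b.lab x := fun x hx => if_neg (hbnot x hx)
    by_cases h1 : 2 * n < 3 * a.verts.ncard
    · obtain ⟨X, ℓ, hX, hX1, hX2, hX3⟩ := iha ha h1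
      refine ⟨X, ℓ, fun x hx => Or.inl (hX hx), hX1, hX2, ?_⟩
      intro x hx x' hx' hl
      obtain ⟨h2, h3⟩ := hX3 x hx x' hx' hl
      refine ⟨by rw [la x (hX hx), la x' (hX hx'), h2], fun y hy hyX => ?_⟩
      rcases hy with hy | hy
      · rw [e1 x (hX hx) y hy, e1 x' (hX hx') y hy]
        exact h3 y hy hyX
      · exact iff_of_false (e3 x (hX hx) y hy) (e3 x' (hX hx') y hy)
    · by_cases h2 : 2 * n < 3 * b.verts.ncard
      · obtain ⟨X, ℓ, hX, hX1, hX2, hX3⟩ := ihb hb h2
        refine ⟨X, ℓ, fun x hx => Or.inr (hX hx), hX1, hX2, ?_⟩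
        intro x hx x' hx' hl
        obtain ⟨h2, h3⟩ := hX3 x hx x' hx' hl
        refine ⟨by rw [lb x (hX hx), lb x' (hX hx'), h2], fun y hy hyX => ?_⟩
        rcases hy with hy | hy
        · exact iff_of_false (e4 x (hX hx) y hy) (e4 x' (hX hx') y hy)
        · rw [e2 x (hX hx) y hy, e2 x' (hX hx') y hy]
          exact h3 y hy hyX
      · rcases le_total a.verts.ncard b.verts.ncard with h3 | h3
        · refine ⟨b.verts, b.lab, fun x hx => Or.inr hx, by omega, by omega, ?_⟩
          intro x hx x' hx' hl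
          refine ⟨by rw [lb x hx, lb x' hx', hl], fun y hy hyX => ?_⟩
          rcases hy with hy | hy
          · exact iff_of_false (e4 x hx y hy) (e4 x' hx' y hy)
          · exact absurd hy hyX
        · refine ⟨a.verts, a.lab, fun x hx => Or.inl hx, by omega, by omega, ?_⟩
          intro x hx x' hx' hl
          refine ⟨by rw [la x hx, la x' hx', hl], fun y hy hyX => ?_⟩
          rcases hy with hy | hy
          · exact absurd hy hyX
          · exact iff_of_false (e3 x hx y hy) (e3 x' hx' y hy)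
  | join i j a ih =>
    obtain ⟨X, ℓ, hX, hX1, hX2, hX3⟩ := ih he.2 hbig
    refine ⟨X, ℓ, hX, hX1, hX2, ?_⟩
    intro x hx x' hx' hl
    obtain ⟨h2, h3⟩ := hX3 x hx x' hx' hl
    refine ⟨h2, fun y hy hyX => ?_⟩
    have h4 := h3 y hy hyX
    show (a.adj x y ∨ (x ∈ a.verts ∧ y ∈ a.verts ∧
      ((a.lab x = i ∧ a.lab y = j) ∨ (a.lab x = j ∧ a.lab y = i)))) ↔
      (a.adj x' y ∨ (x' ∈ a.verts ∧ y ∈ a.verts ∧
      ((a.lab x' = i ∧ a.lab y = j) ∨ (a.lab x' = j ∧ a.lab y = i))))
    rw [h4, h2]
    have h5 : x ∈ a.verts := hX hx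
    have h6 : x' ∈ a.verts := hX hx'
    simp only [h5, h6]
  | relabel i j a ih =>
    obtain ⟨X, ℓ, hX, hX1, hX2, hX3⟩ := ih he hbig
    refine ⟨X, ℓ, hX, hX1, hX2, ?_⟩
    intro x hx x' hx' hl
    obtain ⟨h2, h3⟩ := hX3 x hx x' hx' hl
    refine ⟨?_, h3⟩
    show (if a.lab x = i then j else a.lab x) = (if a.lab x' = i then j else a.lab x')
    rw [h2]

end Expr

end Pool.Agent.X53.Cwd
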