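import Mathlib
import Pool.Agent.X53.Cwd.Expr

/-! The spiral graph and the lower bound for cuts. -/

namespace Pool.Agent.X53.Cwd

open Finset Classical

/-- even vertex `(c,p)`, odd vertex `(c',q)` -/
def eo (c p c' q : ℕ) : Prop := c' + 1 < c ∨ ((c' = c + 1 ∨ c = c' + 1) ∧ q < p)

/-- adjacency on positions -/
def A (c p c' q : ℕ) : Prop :=
  (c % 4 = c' % 4 ∧ ¬ (c = c' ∧ p = q)) ∨ (c % 2 = 0 ∧ c' % 2 = 1 ∧ eo c p c' q) ∨
    (c % 2 = 1 ∧ c' % 2 = 0 ∧ eo c' q c p)

theorem A_symm {c p c' q : ℕ} (h : A c p c' q) : A c' q c p := by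
  rcases h with ⟨h1, h2⟩ | ⟨h1, h2, h3⟩ | ⟨h1, h2, h3⟩
  · exact Or.inl ⟨h1.symm, fun h => h2 ⟨h.1.symm, h.2.symm⟩⟩
  · exact Or.inr (Or.inr ⟨h2, h1, h3⟩)
  · exact Or.inr (Or.inl ⟨h2, h1, h3⟩)

theorem A_even_odd {c p c' q : ℕ} (h : c % 2 = 0) (h' : c' % 2 = 1) :
    A c p c' q ↔ eo c p c' q := by
  constructor
  · rintro (⟨h1, h2⟩ | ⟨h1, h2, h3⟩ | ⟨h1, h2, h3⟩)
    · omega
    · exact h3
    · omega
  · intro h3; exact Or.inr (Or.inl ⟨h, h', h3⟩)

theorem A_odd_even {c p c' q : ℕ} (h : c % 2 = 1) (h' : c' % 2 = 0) :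
    A c p c' q ↔ eo c' q c p := by
  constructor
  · rintro (⟨h1, h2⟩ | ⟨h1, h2, h3⟩ | ⟨h1, h2, h3⟩)
    · omega
    · omega
    · exact h3
  · intro h3; exact Or.inr (Or.inr ⟨h, h', h3⟩)

/-- the spiral graph -/
def spiral (s : ℕ) : SimpleGraph (Fin (4 * s) × Fin s) where
  Adj u v := A u.1 u.2 v.1 v.2
  symm := by
    constructor
    intro u v h
    exact A_symm h
  loopless := by
    constructor
    rintro u (⟨h1, h2⟩ | ⟨h1, h2, h3⟩ | ⟨h1, h2, h3⟩)
    · exact h2 ⟨rfl, rfl⟩
    · omega
    · omega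

variable {s κ : ℕ}

/-- A cut with `κ` neighbourhood classes, in terms of positions. -/
structure Cut (s κ : ℕ) (X : ℕ → ℕ → Prop) (ℓ : ℕ → ℕ → Fin κ) : Prop where
  h : ∀ c p c' p' e q, c < 4 * s → p < s → c' < 4 * s → p' < s → e < 4 * s → q < s →
    X c p → X c' p' → ¬ X e q → ℓ c p = ℓ c' p' → (A c p e q ↔ A c' p' e q)

variable {X : ℕ → ℕ → Prop} {ℓ : ℕ → ℕ → Fin κ}

theorem step1 (hc : Cut s κ X ℓ) (c : ℕ) (hcs : c + 1 < 4 * s) :
    ((Finset.range s).filter (fun p => X c p ∧ ¬ X (c + 1) p)).card ≤ κ := by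
  have h1 : ((Finset.range s).filter (fun p => X c p ∧ ¬ X (c + 1) p)).card ≤
      (Finset.univ : Finset (Fin κ)).card := by
    apply Finset.card_le_card_of_injOn (fun p => ℓ c p) (fun p _ => Finset.mem_univ _)
    have key : ∀ p p', p < p' → p < s → p' < s → X c p → ¬ X (c + 1) p → X c p' →
        ¬ X (c + 1) p' → ℓ c p ≠ ℓ c p' := by
      intro p p' hlt hp hp' hX hY hX' hY' heq
      rcases Nat.mod_two_eq_zero_or_one c with hpar | hpar
      · have h2 := hc.h c p c p' (c + 1) p (by omega) hp (by omega) hp' hcs hp hX hX' hY heq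
        rw [A_even_odd hpar (by omega), A_even_odd hpar (by omega)] at h2
        unfold eo at h2
        omega
      · have h2 := hc.h c p c p' (c + 1) p' (by omega) hp (by omega) hp' hcs hp' hX hX' hY' heq
        rw [A_odd_even hpar (by omega), A_odd_even hpar (by omega)] at h2
        unfold eo at h2
        omega
    intro p hp p' hp' heq
    rw [Finset.mem_coe, Finset.mem_filter, Finset.mem_range] at hp hp'
    rcases lt_trichotomy p p' with h | h | h
    · exact absurd heq (key p p' h hp.1 hp'.1 hp.2.1 hp.2.2 hp'.2.1 hp'.2.2)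
    · exact h
    · exact absurd heq.symm (key p' p h hp'.1 hp.1 hp'.2.1 hp'.2.2 hp.2.1 hp.2.2)
  rwa [Finset.card_univ, Fintype.card_fin] at h1

theorem step2 (hc : Cut s κ X ℓ) (c : ℕ) (hcs : c + 1 < 4 * s) :
    ((Finset.range s).filter (fun p => ¬ X c p ∧ X (c + 1) p)).card ≤ κ := by
  have h1 : ((Finset.range s).filter (fun p => ¬ X c p ∧ X (c + 1) p)).card ≤
      (Finset.univ : Finset (Fin κ)).card := by
    apply Finset.card_le_card_of_injOn (fun p => ℓ (c + 1) p) (fun p _ => Finset.mem_univ _)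
    have key : ∀ p p', p < p' → p < s → p' < s → ¬ X c p → X (c + 1) p → ¬ X c p' →
        X (c + 1) p' → ℓ (c + 1) p ≠ ℓ (c + 1) p' := by
      intro p p' hlt hp hp' hX hY hX' hY' heq
      rcases Nat.mod_two_eq_zero_or_one c with hpar | hpar
      · have h2 := hc.h (c + 1) p (c + 1) p' c p' hcs hp hcs hp' (by omega) hp' hY hY' hX' heq
        rw [A_odd_even (by omega) hpar, A_odd_even (by omega) hpar] at h2
        unfold eo at h2
        omega
      · have h2 := hc.h (c + 1) p (c + 1) p' c p hcs hp hcs hp' (by omega) hp hY hY' hX heq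
        rw [A_even_odd (by omega) hpar, A_even_odd (by omega) hpar] at h2
        unfold eo at h2
        omega
    intro p hp p' hp' heq
    rw [Finset.mem_coe, Finset.mem_filter, Finset.mem_range] at hp hp'
    rcases lt_trichotomy p p' with h | h | h
    · exact absurd heq (key p p' h hp.1 hp'.1 hp.2.1 hp.2.2 hp'.2.1 hp'.2.2)
    · exact h
    · exact absurd heq.symm (key p' p h hp'.1 hp.1 hp'.2.1 hp'.2.2 hp.2.1 hp.2.2)
  rwa [Finset.card_univ, Fintype.card_fin] at h1

/-- number of elements of `X` in column `c` -/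
noncomputable def col (s : ℕ) (X : ℕ → ℕ → Prop) (c : ℕ) : ℕ :=
  ((Finset.range s).filter (fun p => X c p)).card

theorem col_step (hc : Cut s κ X ℓ) (c : ℕ) (hcs : c + 1 < 4 * s) :
    col s X c ≤ col s X (c + 1) + κ ∧ col s X (c + 1) ≤ col s X c + κ := by
  have h1 := step1 hc c hcs
  have h2 := step2 hc c hcs
  have e1 : col s X c = ((Finset.range s).filter (fun p => X c p ∧ X (c + 1) p)).card +
      ((Finset.range s).filter (fun p => X c p ∧ ¬ X (c + 1) p)).card := by
    unfold col
    rw [← Finset.card_filter_add_card_filter_not (s := (Finset.range s).filter (fun p => X c p))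
      (fun p => X (c + 1) p), Finset.filter_filter, Finset.filter_filter]
  have e2 : col s X (c + 1) = ((Finset.range s).filter (fun p => X c p ∧ X (c + 1) p)).card +
      ((Finset.range s).filter (fun p => ¬ X c p ∧ X (c + 1) p)).card := by
    unfold col
    rw [← Finset.card_filter_add_card_filter_not
      (s := (Finset.range s).filter (fun p => X (c + 1) p))
      (fun p => X c p), Finset.filter_filter, Finset.filter_filter]
    congr 2
    · apply Finset.filter_congr; intro p _; exact and_comm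
    · apply Finset.filter_congr; intro p _; exact and_comm
  omega

theorem col_diff (hc : Cut s κ X ℓ) (c t : ℕ) (hcs : c + t < 4 * s) :
    col s X c ≤ col s X (c + t) + t * κ ∧ col s X (c + t) ≤ col s X c + t * κ := by
  induction t with
  | zero => simp
  | succ t ih =>
    have h1 := ih (by omega)
    have h2 := col_step hc (c + t) (by omega)
    rw [show c + t + 1 = c + (t + 1) by ring] at h2
    have h3 : (t + 1) * κ = t * κ + κ := by ring
    omega

/-- mixed columns -/
def Mixed (s : ℕ) (X : ℕ → ℕ → Prop) (c : ℕ) : Prop := 0 < col s X c ∧ col s X c < s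

theorem exists_X {c : ℕ} (h : 0 < col s X c) : ∃ p < s, X c p := by
  obtain ⟨p, hp⟩ := Finset.card_pos.1 h
  rw [Finset.mem_filter, Finset.mem_range] at hp
  exact ⟨p, hp.1, hp.2⟩

theorem exists_Y {c : ℕ} (h : col s X c < s) : ∃ p < s, ¬ X c p := by
  by_contra hcon
  push Not at hcon
  have : col s X c = s := by
    unfold col
    rw [Finset.filter_true_of_mem (fun p hp => hcon p (Finset.mem_range.1 hp)),
      Finset.card_range]
  omega

/-- the number of mixed columns -/
theorem mixed_card (hc : Cut s κ X ℓ) :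
    ((Finset.range (4 * s - 1)).filter (fun c => Mixed s X c)).card ≤ 16 * κ := by
  -- choose local pairs
  have hch : ∀ c, ∃ (a p b q : ℕ), (c + 1 < 4 * s ∧ Mixed s X c) →
      (X a p ∧ ¬ X b q ∧ p < s ∧ q < s ∧ ((a = c ∧ b = c + 1) ∨ (a = c + 1 ∧ b = c))) := by
    intro c
    by_cases hm : c + 1 < 4 * s ∧ Mixed s X c
    · obtain ⟨p, hp, hXp⟩ := exists_X hm.2.1
      obtain ⟨q, hq, hYq⟩ := exists_Y hm.2.2
      by_cases h0 : X (c + 1) 0
      · exact ⟨c + 1, 0, c, q, fun _ => ⟨h0, hYq, by omega, hq, Or.inr ⟨rfl, rfl⟩⟩⟩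
      · exact ⟨c, p, c + 1, 0, fun _ => ⟨hXp, h0, hp, by omega, Or.inl ⟨rfl, rfl⟩⟩⟩
    · exact ⟨0, 0, 0, 0, fun h => absurd h hm⟩
  choose a p b q hab using hch
  let Φ : ℕ → (Fin 4 × Bool × Bool) × Fin κ := fun c =>
    ((⟨c % 4, Nat.mod_lt _ (by norm_num)⟩, decide (a c % 2 = 0),
      decide (A (a c) (p c) (b c) (q c))), ℓ (a c) (p c))
  have h1 : ((Finset.range (4 * s - 1)).filter (fun c => Mixed s X c)).card ≤
      (Finset.univ : Finset ((Fin 4 × Bool × Bool) × Fin κ)).card := by
    apply Finset.card_le_card_of_injOn Φ (fun p _ => Finset.mem_univ _)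
    have key : ∀ c c', c < c' → c + 1 < 4 * s → c' + 1 < 4 * s → Mixed s X c → Mixed s X c' →
        Φ c ≠ Φ c' := by
      intro c c' hlt hcs hcs' hm hm' heq
      have heq1 := congrArg (fun x => (x.1.1 : ℕ)) heq
      have heq2 := congrArg (fun x => x.1.2.1) heq
      have heq3 := congrArg (fun x => x.1.2.2) heq
      have heq4 : ℓ (a c) (p c) = ℓ (a c') (p c') := congrArg (fun x => x.2) heq
      have e1 : c % 4 = c' % 4 := heq1
      have e2 : (a c % 2 = 0) ↔ (a c' % 2 = 0) := by
        have : decide (a c % 2 = 0) = decide (a c' % 2 = 0) := heq2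
        exact decide_eq_decide.1 this
      have e3 : A (a c) (p c) (b c) (q c) ↔ A (a c') (p c') (b c') (q c') := by
        have : decide (A (a c) (p c) (b c) (q c)) = decide (A (a c') (p c') (b c') (q c')) := heq3
        exact decide_eq_decide.1 this
      obtain ⟨x1, x2, x3, x4, x5⟩ := hab c ⟨hcs, hm⟩
      obtain ⟨y1, y2, y3, y4, y5⟩ := hab c' ⟨hcs', hm'⟩
      have f1 := hc.h (a c) (p c) (a c') (p c') (b c) (q c) (by omega) x3 (by omega) y3 (by omega)
        x4 x1 y1 x2 heq4
      have f2 := hc.h (a c) (p c) (a c') (p c') (b c') (q c') (by omega) x3 (by omega) y3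
        (by omega) y4 x1 y1 y2 heq4
      by_cases hpar : a c % 2 = 0
      · have hpar' := e2.1 hpar
        rw [A_even_odd hpar (by omega), A_even_odd hpar' (by omega)] at f1 f2 e3
        unfold eo at f1 f2 e3
        omega
      · have hpar' : ¬ a c' % 2 = 0 := fun h => hpar (e2.2 h)
        rw [A_odd_even (by omega) (by omega), A_odd_even (by omega) (by omega)] at f1 f2 e3
        unfold eo at f1 f2 e3
        omega
    intro c hcm c' hcm' heq
    rw [Finset.mem_coe, Finset.mem_filter, Finset.mem_range] at hcm hcm'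
    rcases lt_trichotomy c c' with h | h | h
    · exact absurd heq (key c c' h (by omega) (by omega) hcm.2 hcm'.2)
    · exact h
    · exact absurd heq.symm (key c' c h (by omega) (by omega) hcm'.2 hcm.2)
  rw [Finset.card_univ, Fintype.card_prod, Fintype.card_prod, Fintype.card_prod, Fintype.card_fin,
    Fintype.card_fin, Fintype.card_bool] at h1
  omega

end Pool.Agent.X53.Cwd
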