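import Mathlib
import Pool.Agent.X53.Cwd.Graph

/-! The lower bound for the clique-width of the spiral graph. -/

namespace Pool.Agent.X53.Cwd

open Finset Classical

variable {s κ : ℕ} {X : ℕ → ℕ → Prop} {ℓ : ℕ → ℕ → Fin κ}

theorem col_le (s : ℕ) (X : ℕ → ℕ → Prop) (c : ℕ) : col s X c ≤ s := by
  unfold col
  exact (Finset.card_filter_le _ _).trans (by rw [Finset.card_range])

theorem same_type (hc : Cut s κ X ℓ) (hs : κ * (16 * κ + 2) < s) :
    ∀ t c, c + t < 4 * s → ¬ Mixed s X c → ¬ Mixed s X (c + t) →
      (col s X c = 0 ↔ col s X (c + t) = 0) := by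
  intro t
  induction t using Nat.strong_induction_on with
  | _ t ih =>
    intro c hct h1 h2
    by_cases hex : ∃ u, 0 < u ∧ u < t ∧ ¬ Mixed s X (c + u)
    · obtain ⟨u, hu0, hut, hu⟩ := hex
      have e1 := ih u hut c (by omega) h1 hu
      have e2 := ih (t - u) (by omega) (c + u) (by omega) hu
        (by rw [show c + u + (t - u) = c + t by omega]; exact h2)
      rw [show c + u + (t - u) = c + t by omega] at e2
      exact e1.trans e2
    · push Not at hex
      have hcard : t ≤ 16 * κ + 1 := by
        rcases Nat.eq_zero_or_pos t with h0 | h0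
        · omega
        have h3 : (Finset.Ico (c + 1) (c + t)) ⊆
            (Finset.range (4 * s - 1)).filter (fun c => Mixed s X c) := by
          intro d hd
          rw [Finset.mem_Ico] at hd
          rw [Finset.mem_filter, Finset.mem_range]
          refine ⟨by omega, ?_⟩
          have := hex (d - c) (by omega) (by omega)
          rwa [show c + (d - c) = d by omega] at this
        have h4 := Finset.card_le_card h3
        rw [Nat.card_Ico] at h4
        have h5 := mixed_card hc
        omega
      have hd := col_diff hc c t hct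
      have h5 : t * κ ≤ (16 * κ + 1) * κ := Nat.mul_le_mul_right _ hcard
      have h6 : (16 * κ + 1) * κ < s := by nlinarith
      have h7 := col_le s X c
      have h8 := col_le s X (c + t)
      unfold Mixed at h1 h2
      omega

theorem cut_bound (hc : Cut s κ X ℓ) (hκ : 0 < κ)
    (hlow : 4 * s ^ 2 ≤ 3 * ∑ c ∈ Finset.range (4 * s), col s X c)
    (hup : 3 * ∑ c ∈ Finset.range (4 * s), col s X c ≤ 2 * (4 * s ^ 2)) :
    s ≤ κ * (16 * κ + 2) := by
  by_contra hcon
  push Not at hcon
  have hs0 : 0 < s := by omega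
  -- number of mixed columns
  have hR : ((Finset.range (4 * s)).filter (fun c => Mixed s X c)).card ≤ 16 * κ + 1 := by
    have h1 := mixed_card hc
    have h2 : (Finset.range (4 * s)).filter (fun c => Mixed s X c) ⊆
        insert (4 * s - 1) ((Finset.range (4 * s - 1)).filter (fun c => Mixed s X c)) := by
      intro c hcm
      rw [Finset.mem_filter, Finset.mem_range] at hcm
      rw [Finset.mem_insert, Finset.mem_filter, Finset.mem_range]
      by_cases h : c = 4 * s - 1
      · exact Or.inl h
      · exact Or.inr ⟨by omega, hcm.2⟩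
    have h3 := Finset.card_le_card h2
    have h4 := Finset.card_insert_le (4 * s - 1)
      ((Finset.range (4 * s - 1)).filter (fun c => Mixed s X c))
    omega
  set Rn := ((Finset.range (4 * s)).filter (fun c => Mixed s X c)).card with hRn
  have hall : ∀ c c', c < 4 * s → c' < 4 * s → ¬ Mixed s X c → ¬ Mixed s X c' →
      (col s X c = 0 ↔ col s X c' = 0) := by
    intro c c' h1 h2 h3 h4
    rcases le_total c c' with h | h
    · have := same_type hc hcon (c' - c) c (by omega) h3
        (by rw [show c + (c' - c) = c' by omega]; exact h4)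
      rwa [show c + (c' - c) = c' by omega] at this
    · have := same_type hc hcon (c - c') c' (by omega) h4
        (by rw [show c' + (c - c') = c by omega]; exact h3)
      rw [show c' + (c - c') = c by omega] at this
      exact this.symm
  have hfin : 4 * s ≤ 48 * κ + 3 := by
    by_cases hz : ∀ c < 4 * s, ¬ Mixed s X c → col s X c = 0
    · have h1 : ∑ c ∈ Finset.range (4 * s), col s X c ≤
          ∑ c ∈ Finset.range (4 * s), (if Mixed s X c then s else 0) := by
        apply Finset.sum_le_sum
        intro c hcr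
        rw [Finset.mem_range] at hcr
        split_ifs with hm
        · exact col_le s X c
        · rw [hz c hcr hm]
      rw [← Finset.sum_filter, Finset.sum_const, smul_eq_mul] at h1
      have h2 : Rn * s ≤ (16 * κ + 1) * s := Nat.mul_le_mul_right _ hR
      have h3 : (4 * s) * s ≤ (48 * κ + 3) * s := by nlinarith
      exact Nat.le_of_mul_le_mul_right h3 hs0
    · push Not at hz
      obtain ⟨c0, hc0, hm0, hne0⟩ := hz
      have hsv : ∀ c < 4 * s, ¬ Mixed s X c → col s X c = s := by
        intro c hcr hm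
        have h1 := hall c c0 hcr hc0 hm hm0
        have h2 : col s X c ≠ 0 := fun h => hne0 (h1.1 h)
        have h3 := col_le s X c
        unfold Mixed at hm
        omega
      have h1 : ∑ c ∈ Finset.range (4 * s), (if ¬ Mixed s X c then s else 0) ≤
          ∑ c ∈ Finset.range (4 * s), col s X c := by
        apply Finset.sum_le_sum
        intro c hcr
        rw [Finset.mem_range] at hcr
        split_ifs with hm
        · exact Nat.zero_le _
        · rw [hsv c hcr hm]
      rw [← Finset.sum_filter, Finset.sum_const, smul_eq_mul] at h1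
      have h2 := Finset.card_filter_add_card_filter_not (s := Finset.range (4 * s))
        (fun c => Mixed s X c)
      rw [Finset.card_range, ← hRn] at h2
      set Q := ((Finset.range (4 * s)).filter (fun c => ¬ Mixed s X c)).card with hQ
      have h3 : (4 * s) * s = Rn * s + Q * s := by rw [← h2]; ring
      have h4 : Rn * s ≤ (16 * κ + 1) * s := Nat.mul_le_mul_right _ hR
      have h5 : (4 * s) * s ≤ (48 * κ + 3) * s := by nlinarith
      exact Nat.le_of_mul_le_mul_right h5 hs0
  nlinarith

/-- the graph has an expression with `κ` labels -/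
def CwLE {V : Type} (G : SimpleGraph V) (κ : ℕ) : Prop :=
  ∃ e : Expr V κ, e.Valid ∧ e.verts = Set.univ ∧ ∀ u v, e.adj u v ↔ G.Adj u v

theorem spiral_bound (s κ : ℕ) (hs : 0 < s) (h : CwLE (spiral s) κ) : s ≤ κ * (16 * κ + 2) := by
  obtain ⟨e, hv, huniv, hadj⟩ := h
  have hcard : (Set.univ : Set (Fin (4 * s) × Fin s)).ncard = 4 * s ^ 2 := by
    rw [Set.ncard_univ, Nat.card_eq_fintype_card, Fintype.card_prod, Fintype.card_fin,
      Fintype.card_fin]
    ring
  have hn2 : 2 ≤ 4 * s ^ 2 := by nlinarith
  obtain ⟨Y, l, hY, hY1, hY2, hY3⟩ := e.balanced (4 * s ^ 2) hn2 hv (by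
    rw [huniv, hcard]; omega)
  have hκ : 0 < κ := by
    have := (l (⟨0, by omega⟩, ⟨0, hs⟩)).2
    omega
  let X : ℕ → ℕ → Prop := fun c p => ∃ (h : c < 4 * s) (h' : p < s), (⟨c, h⟩, ⟨p, h'⟩) ∈ Y
  let ℓ : ℕ → ℕ → Fin κ := fun c p => if h : c < 4 * s ∧ p < s then l (⟨c, h.1⟩, ⟨p, h.2⟩)
    else ⟨0, hκ⟩
  have hcut : Cut s κ X ℓ := by
    refine ⟨?_⟩
    intro c p c' p' f q hc hp hc' hp' hf hq hX hX' hYq heq
    obtain ⟨h1, h2, h3⟩ := hX
    obtain ⟨h1', h2', h3'⟩ := hX'
    have e1 : ℓ c p = l (⟨c, hc⟩, ⟨p, hp⟩) := dif_pos ⟨hc, hp⟩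
    have e2 : ℓ c' p' = l (⟨c', hc'⟩, ⟨p', hp'⟩) := dif_pos ⟨hc', hp'⟩
    rw [e1, e2] at heq
    have h4 := (hY3 (⟨c, hc⟩, ⟨p, hp⟩) h3 (⟨c', hc'⟩, ⟨p', hp'⟩) h3' heq).2
      (⟨f, hf⟩, ⟨q, hq⟩) (by rw [huniv]; exact Set.mem_univ _) (fun h => hYq ⟨hf, hq, h⟩)
    rw [hadj, hadj] at h4
    exact h4
  have hsum : ∑ c ∈ Finset.range (4 * s), col s X c = Y.ncard := by
    have e1 : Y.ncard = (Finset.univ.filter (fun v : Fin (4 * s) × Fin s => v ∈ Y)).card := by
      rw [Set.ncard_eq_toFinset_card', Set.toFinset_card]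
      rw [← Fintype.card_subtype]
    rw [e1, Finset.card_filter, Fintype.sum_prod_type]
    rw [Finset.sum_range]
    apply Finset.sum_congr rfl
    intro c _
    unfold col
    rw [Finset.card_filter, Finset.sum_range]
    apply Finset.sum_congr rfl
    intro p _
    have : X (c : ℕ) (p : ℕ) ↔ (c, p) ∈ Y := by
      constructor
      · rintro ⟨h1, h2, h3⟩; exact h3
      · intro h3; exact ⟨c.2, p.2, h3⟩
    simp only [this]
  apply cut_bound hcut hκ
  · rw [hsum]; exact hY1
  · rw [hsum]; exact hY2

end Pool.Agent.X53.Cwd
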