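import Mathlib
import Pool.Agent.X53.Cwd.Bound

/-! Monotone partitions, box graphs, and the verification for the spiral graph. -/

namespace Pool.Agent.X53.Cwd

/-- `X` is uniform to `Y`. -/
def UniformTo {V : Type} (G : SimpleGraph V) (X Y : Set V) : Prop :=
  (∀ x ∈ X, ∀ y ∈ Y, G.Adj x y) ∨ (∀ x ∈ X, ∀ y ∈ Y, ¬ G.Adj x y)

/-- `X` is monotone to `Y`: the neighbourhoods in `Y` of the vertices of `X` form a chain. -/
def MonotoneTo {V : Type} (G : SimpleGraph V) (X Y : Set V) : Prop :=
  ∀ u ∈ X, ∀ v ∈ X, (∀ y ∈ Y, G.Adj u y → G.Adj v y) ∨ (∀ y ∈ Y, G.Adj v y → G.Adj u y)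

/-- The parts are the sets `{v | part v = i}`; each is monotone to its complement. -/
def IsMonotone {V : Type} {k : ℕ} (G : SimpleGraph V) (part : V → Fin k) : Prop :=
  ∀ i, MonotoneTo G {v | part v = i} {v | part v ≠ i}

/-- Every part is a clique. -/
def IntoCliques {V : Type} {k : ℕ} (G : SimpleGraph V) (part : V → Fin k) : Prop :=
  ∀ u v, part u = part v → u ≠ v → G.Adj u v

/-- The box graph: two parts are adjacent when they are not uniform to each other. -/
def boxGraph {V : Type} {k : ℕ} (G : SimpleGraph V) (part : V → Fin k) : SimpleGraph (Fin k) where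
  Adj i j := i ≠ j ∧ ¬ UniformTo G {v | part v = i} {v | part v = j}
  symm := by
    constructor
    rintro i j ⟨h1, h2⟩
    refine ⟨h1.symm, fun h => h2 ?_⟩
    rcases h with h | h
    · exact Or.inl (fun x hx y hy => (h y hy x hx).symm)
    · exact Or.inr (fun x hx y hy hxy => h y hy x hx hxy.symm)
  loopless := by
    constructor
    rintro i ⟨h1, -⟩
    exact h1 rfl

/-- `part` gives a monotone partition of `V(G)` into `k` cliques whose box graph is a cycle on its
`k ≥ 3` vertices. -/
def Good {V : Type} {k : ℕ} (G : SimpleGraph V) (part : V → Fin k) : Prop :=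
  Function.Surjective part ∧ IsMonotone G part ∧ IntoCliques G part ∧ 3 ≤ k ∧
    Nonempty (boxGraph G part ≃g SimpleGraph.cycleGraph k)

theorem spiral_good (s : ℕ) (hs : 2 ≤ s) :
    Good (spiral s) (fun v : Fin (4 * s) × Fin s => (⟨(v.1 : ℕ) % 4, Nat.mod_lt _ (by norm_num)⟩ : Fin 4)) := by
  refine ⟨?_, ?_, ?_, by norm_num, ?_⟩
  · intro i
    refine ⟨(⟨i, by have := i.2; omega⟩, ⟨0, by omega⟩), ?_⟩
    apply Fin.ext
    show (i : ℕ) % 4 = i
    have := i.2
    omega
  · intro i u hu v hv
    have hu' : (u.1 : ℕ) % 4 = (i : ℕ) := congrArg Fin.val hu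
    have hv' : (v.1 : ℕ) % 4 = (i : ℕ) := congrArg Fin.val hv
    have key : ∀ c p c2 p2 : ℕ, c % 4 = (i : ℕ) → c2 % 4 = (i : ℕ) →
        (c < c2 ∨ (c = c2 ∧ p ≤ p2)) →
        ((∀ e q : ℕ, e % 4 ≠ (i : ℕ) → A c p e q → A c2 p2 e q) ∨
          (∀ e q : ℕ, e % 4 ≠ (i : ℕ) → A c2 p2 e q → A c p e q)) := by
      intro c p c2 p2 h1 h2 h3
      rcases Nat.mod_two_eq_zero_or_one c with hpar | hpar
      · left
        intro e q he h
        unfold A eo at h ⊢
        omega
      · right
        intro e q he h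
        unfold A eo at h ⊢
        omega
    have hfin : ∀ y : Fin (4 * s) × Fin s,
        y ∈ {v : Fin (4 * s) × Fin s | (⟨(v.1 : ℕ) % 4, Nat.mod_lt _ (by norm_num)⟩ : Fin 4) ≠ i} →
        (y.1 : ℕ) % 4 ≠ (i : ℕ) := by
      intro y hy h
      apply hy
      exact Fin.ext h
    rcases lt_trichotomy (u.1 : ℕ) (v.1 : ℕ) with h | h | h
    · rcases key u.1 u.2 v.1 v.2 hu' hv' (Or.inl h) with h1 | h1
      · exact Or.inl (fun y hy hxy => h1 _ _ (hfin y hy) hxy)
      · exact Or.inr (fun y hy hxy => h1 _ _ (hfin y hy) hxy)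
    · rcases le_total (u.2 : ℕ) (v.2 : ℕ) with h2 | h2
      · rcases key u.1 u.2 v.1 v.2 hu' hv' (Or.inr ⟨h, h2⟩) with h1 | h1
        · exact Or.inl (fun y hy hxy => h1 _ _ (hfin y hy) hxy)
        · exact Or.inr (fun y hy hxy => h1 _ _ (hfin y hy) hxy)
      · rcases key v.1 v.2 u.1 u.2 hv' hu' (Or.inr ⟨h.symm, h2⟩) with h1 | h1
        · exact Or.inr (fun y hy hxy => h1 _ _ (hfin y hy) hxy)
        · exact Or.inl (fun y hy hxy => h1 _ _ (hfin y hy) hxy)
    · rcases key v.1 v.2 u.1 u.2 hv' hu' (Or.inl h) with h1 | h1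
      · exact Or.inr (fun y hy hxy => h1 _ _ (hfin y hy) hxy)
      · exact Or.inl (fun y hy hxy => h1 _ _ (hfin y hy) hxy)
  · intro u v huv hne
    have h1 : (u.1 : ℕ) % 4 = (v.1 : ℕ) % 4 := congrArg Fin.val huv
    left
    refine ⟨h1, fun h => hne ?_⟩
    exact Prod.ext (Fin.ext h.1) (Fin.ext h.2)
  · -- the box graph
    set part : Fin (4 * s) × Fin s → Fin 4 :=
      fun v => (⟨(v.1 : ℕ) % 4, Nat.mod_lt _ (by norm_num)⟩ : Fin 4) with hpart
    have hmem : ∀ (c p : ℕ) (hc : c < 4 * s) (hp : p < s) (i : Fin 4), c % 4 = (i : ℕ) →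
        ((⟨c, hc⟩, ⟨p, hp⟩) : Fin (4 * s) × Fin s) ∈ {v | part v = i} := by
      intro c p hc hp i h
      exact Fin.ext h
    have hmem' : ∀ (v : Fin (4 * s) × Fin s) (i : Fin 4), v ∈ {v | part v = i} →
        (v.1 : ℕ) % 4 = (i : ℕ) := fun v i h => congrArg Fin.val h
    -- same parity: uniform
    have hunif : ∀ i j : Fin 4, i ≠ j → (i : ℕ) % 2 = (j : ℕ) % 2 →
        UniformTo (spiral s) {v | part v = i} {v | part v = j} := by
      intro i j hij hpar
      right
      intro x hx y hy hxy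
      have h1 := hmem' x i hx
      have h2 := hmem' y j hy
      have h3 : (i : ℕ) ≠ j := fun h => hij (Fin.ext h)
      have h4 : A x.1 x.2 y.1 y.2 := hxy
      unfold A at h4
      omega
    -- even/odd: not uniform
    have hnon : ∀ (i j : Fin 4) (c c' : ℕ), c < 4 * s → c' < 4 * s → c % 4 = (i : ℕ) →
        c' % 4 = (j : ℕ) →
        c % 2 = 0 → c' % 2 = 1 → (c' = c + 1 ∨ c = c' + 1) →
        ¬ UniformTo (spiral s) {v | part v = i} {v | part v = j} := by
      intro i j c c' hc hc' hi hj he ho hcc h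
      rcases h with h | h
      · have h1 : A c 0 c' 0 := h _ (hmem c 0 hc (by omega) i hi) _ (hmem c' 0 hc' (by omega) j hj)
        rw [A_even_odd he ho] at h1
        unfold eo at h1
        omega
      · have h1 : ¬ A c 1 c' 0 :=
          h _ (hmem c 1 hc (by omega) i hi) _ (hmem c' 0 hc' (by omega) j hj)
        apply h1
        rw [A_even_odd he ho]
        unfold eo
        omega
    have hsymm : ∀ i j : Fin 4, UniformTo (spiral s) {v | part v = i} {v | part v = j} →
        UniformTo (spiral s) {v | part v = j} {v | part v = i} := by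
      intro i j h
      rcases h with h | h
      · exact Or.inl (fun x hx y hy => (h y hy x hx).symm)
      · exact Or.inr (fun x hx y hy hxy => h y hy x hx hxy.symm)
    have n01 := hnon 0 1 0 1 (by omega) (by omega) rfl rfl rfl rfl (Or.inl rfl)
    have n03 := hnon 0 3 4 3 (by omega) (by omega) rfl rfl rfl rfl (Or.inr rfl)
    have n21 := hnon 2 1 2 1 (by omega) (by omega) rfl rfl rfl rfl (Or.inr rfl)
    have n23 := hnon 2 3 2 3 (by omega) (by omega) rfl rfl rfl rfl (Or.inl rfl)
    have u02 := hunif 0 2 (by decide) rfl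
    have u20 := hunif 2 0 (by decide) rfl
    have u13 := hunif 1 3 (by decide) rfl
    have u31 := hunif 3 1 (by decide) rfl
    have heq : boxGraph (spiral s) part = SimpleGraph.cycleGraph 4 := by
      ext i j
      show (i ≠ j ∧ ¬ UniformTo (spiral s) {v | part v = i} {v | part v = j}) ↔
        (SimpleGraph.cycleGraph 4).Adj i j
      rw [SimpleGraph.cycleGraph_adj]
      have h1 : ∀ a : Fin 4, a = 0 ∨ a = 1 ∨ a = 2 ∨ a = 3 := by decide
      rcases h1 i with rfl | rfl | rfl | rfl <;> rcases h1 j with rfl | rfl | rfl | rfl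
      · exact iff_of_false (fun h => h.1 rfl) (by decide)
      · exact iff_of_true ⟨by decide, n01⟩ (by decide)
      · exact iff_of_false (fun h => h.2 u02) (by decide)
      · exact iff_of_true ⟨by decide, n03⟩ (by decide)
      · exact iff_of_true ⟨by decide, fun h => n01 (hsymm _ _ h)⟩ (by decide)
      · exact iff_of_false (fun h => h.1 rfl) (by decide)
      · exact iff_of_true ⟨by decide, fun h => n21 (hsymm _ _ h)⟩ (by decide)
      · exact iff_of_false (fun h => h.2 u13) (by decide)
      · exact iff_of_false (fun h => h.2 u20) (by decide)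
      · exact iff_of_true ⟨by decide, n21⟩ (by decide)
      · exact iff_of_false (fun h => h.1 rfl) (by decide)
      · exact iff_of_true ⟨by decide, n23⟩ (by decide)
      · exact iff_of_true ⟨by decide, fun h => n03 (hsymm _ _ h)⟩ (by decide)
      · exact iff_of_false (fun h => h.2 u31) (by decide)
      · exact iff_of_true ⟨by decide, fun h => n23 (hsymm _ _ h)⟩ (by decide)
      · exact iff_of_false (fun h => h.1 rfl) (by decide)
    rw [heq]
    exact ⟨SimpleGraph.Iso.refl⟩

end Pool.Agent.X53.Cwd
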